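import Mathlib

/-!
A vectorial bent function `F : F_2^8 → F_2^4` (the multiplication of a proper semifield of
order 16) such that for every linear `L`, every preimage of `F + L` has at least two points;
so no `F + L` is almost balanced of type (-), whose small preimage has `2^4 - 2^4 + 2^0 = 1` point.
-/

set_option maxRecDepth 100000

namespace Pool.Agent.Results.MP_7d7944_co.Counter

open Finset

/-- `F_2^n`. -/
abbrev V (n : ℕ) : Type := Fin n → ZMod 2

/-- Size of the preimage of `β`. -/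
def pre {n m : ℕ} (F : V n → V m) (β : V m) : ℕ := (univ.filter fun x => F x = β).card

/-- Bent: every derivative in a direction `a ≠ 0` takes each value exactly `2^(n-m)` times. -/
def Bent (n m : ℕ) (F : V n → V m) : Prop :=
  ∀ a : V n, a ≠ 0 → ∀ β : V m, pre (fun x => F (x + a) + F x) β = 2 ^ (n - m)

/-- Almost balanced of type (+). -/
def TypePlus (n m : ℕ) (F : V n → V m) : Prop :=
  ∃ α : V m, (pre F α : ℤ) = 2 ^ (n - m) + 2 ^ (n / 2) - 2 ^ (n / 2 - m) ∧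
    ∀ β : V m, β ≠ α → (pre F β : ℤ) = 2 ^ (n - m) - 2 ^ (n / 2 - m)

/-- Almost balanced of type (-). -/
def TypeMinus (n m : ℕ) (F : V n → V m) : Prop :=
  ∃ α : V m, (pre F α : ℤ) = 2 ^ (n - m) - 2 ^ (n / 2) + 2 ^ (n / 2 - m) ∧
    ∀ β : V m, β ≠ α → (pre F β : ℤ) = 2 ^ (n - m) + 2 ^ (n / 2 - m)

def mul (x y : V 4) : V 4 :=
  ![x 0 * y 0 + x 3 * y 1 + x 1 * y 2 + x 2 * y 2 + x 3 * y 2 + x 1 * y 3,
    x 1 * y 0 + x 0 * y 1 + x 1 * y 2 + x 2 * y 2 + x 1 * y 3 + x 2 * y 3 + x 3 * y 3,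
    x 2 * y 0 + x 1 * y 1 + x 0 * y 2 + x 2 * y 2 + x 3 * y 2 + x 1 * y 3 + x 3 * y 3,
    x 3 * y 0 + x 1 * y 1 + x 2 * y 1 + x 2 * y 2 + x 0 * y 3 + x 2 * y 3 + x 3 * y 3]

def X (z : V 8) : V 4 := ![z 0, z 1, z 2, z 3]
def Y (z : V 8) : V 4 := ![z 4, z 5, z 6, z 7]
def J (x y : V 4) : V 8 := ![x 0, x 1, x 2, x 3, y 0, y 1, y 2, y 3]
def F0 (z : V 8) : V 4 := mul (X z) (Y z)

lemma X_J (x y : V 4) : X (J x y) = x := by
  funext i; fin_cases i <;> rfl
lemma Y_J (x y : V 4) : Y (J x y) = y := by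
  funext i; fin_cases i <;> rfl
lemma J_XY (z : V 8) : J (X z) (Y z) = z := by
  funext i; fin_cases i <;> rfl
lemma X_add (z w : V 8) : X (z + w) = X z + X w := by
  funext i; fin_cases i <;> rfl
lemma Y_add (z w : V 8) : Y (z + w) = Y z + Y w := by
  funext i; fin_cases i <;> rfl
lemma J_add (x y x' y' : V 4) : J (x + x') (y + y') = J x y + J x' y' := by
  funext i; fin_cases i <;> rfl
lemma J_zero : J 0 0 = 0 := by
  funext i; fin_cases i <;> rfl
lemma add_mul' (x x' y : V 4) : mul (x + x') y = mul x y + mul x' y := by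
  funext i; fin_cases i <;> simp [mul] <;> ring
lemma mul_add' (x y y' : V 4) : mul x (y + y') = mul x y + mul x y' := by
  funext i; fin_cases i <;> simp [mul] <;> ring
lemma zero_mul' (y : V 4) : mul 0 y = 0 := by
  funext i; fin_cases i <;> simp [mul]
lemma mul_zero' (x : V 4) : mul x 0 = 0 := by
  funext i; fin_cases i <;> simp [mul]
lemma two (v : V 4) : v + v = 0 := by
  funext i; exact CharTwo.add_self_eq_zero (v i)

def dec (n : ℕ) : V 4 := fun i => if n.testBit i then 1 else 0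

lemma dec_xor (a b : ℕ) : dec (a ^^^ b) = dec a + dec b := by
  funext i
  simp only [dec, Nat.testBit_xor, Pi.add_apply]
  cases a.testBit i <;> cases b.testBit i <;> simp
  rfl

lemma dec_surj (v : V 4) : ∃ n, n < 16 ∧ dec n = v := by
  have h : ∀ a b c d : ZMod 2, ∃ n : Fin 16, dec n = ![a, b, c, d] := by decide +kernel
  obtain ⟨n, hn⟩ := h (v 0) (v 1) (v 2) (v 3)
  refine ⟨n, n.2, hn.trans ?_⟩
  funext i; fin_cases i <;> rfl

lemma dec_inj (a b : ℕ) (ha : a < 16) (hb : b < 16) (h : dec a = dec b) : a = b := by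
  have : ∀ a b : Fin 16, dec a = dec b → a = b := by decide +kernel
  exact congrArg Fin.val (this ⟨a, ha⟩ ⟨b, hb⟩ h)

lemma nzd (x y : V 4) (h : mul x y = 0) : x = 0 ∨ y = 0 := by
  have : ∀ a b : Fin 16, mul (dec a) (dec b) = 0 → dec a = 0 ∨ dec b = 0 := by decide +kernel
  obtain ⟨a, ha, rfl⟩ := dec_surj x
  obtain ⟨b, hb, rfl⟩ := dec_surj y
  exact this ⟨a, ha⟩ ⟨b, hb⟩ h

lemma surj_of (g : V 4 → V 4) (hadd : ∀ x x', g (x + x') = g x + g x')
    (hk : ∀ x, g x = 0 → x = 0) : Function.Surjective g := by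
  apply Finite.surjective_of_injective
  intro x x' h
  have h1 : g (x + x') = 0 := by rw [hadd, h, two]
  have h2 := hk _ h1
  calc x = x + (x' + x') := by rw [two, add_zero]
    _ = (x + x') + x' := by rw [add_assoc]
    _ = x' := by rw [h2, zero_add]

lemma bent : Bent 8 4 F0 := by
  intro a ha β
  let D : V 8 →+ V 4 := AddMonoidHom.mk' (fun z => mul (X z) (Y a) + mul (X a) (Y z)) (by
    intro z w
    simp only [X_add, Y_add, add_mul', mul_add']
    abel)
  have hD : ∀ z, D z = mul (X z) (Y a) + mul (X a) (Y z) := fun z => rfl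
  have hs : Function.Surjective D := by
    intro t
    by_cases hy : Y a = 0
    · have hx : X a ≠ 0 := by
        intro hx
        apply ha
        rw [← J_XY a, hx, hy, J_zero]
      obtain ⟨y, hy'⟩ := surj_of (fun y => mul (X a) y) (fun y y' => mul_add' _ _ _)
        (fun y h => (nzd _ _ h).resolve_left hx) t
      refine ⟨J 0 y, ?_⟩
      rw [hD, X_J, Y_J, zero_mul', zero_add]
      exact hy'
    · obtain ⟨x, hx'⟩ := surj_of (fun x => mul x (Y a)) (fun x x' => add_mul' _ _ _)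
        (fun x h => (nzd _ _ h).resolve_right hy) t
      refine ⟨J x 0, ?_⟩
      rw [hD, X_J, Y_J, mul_zero', add_zero]
      exact hx'
  have hfib : ∀ t : V 4, (univ.filter fun z => D z = t).card = 16 := by
    intro t
    have h1 : ∀ s : V 4, (univ.filter fun z => D z = s).card = (univ.filter fun z => D z = t).card :=
      fun s => AddMonoidHom.card_fiber_eq_of_mem_range D (hs s) (hs t)
    have h2 := Finset.card_eq_sum_card_fiberwise (f := fun z => D z) (s := univ) (t := univ)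
      (fun _ _ => by simp)
    simp only [h1, Finset.sum_const, smul_eq_mul, Finset.card_univ, Fintype.card_fun,
      ZMod.card, Fintype.card_fin] at h2
    omega
  have key : ∀ z, F0 (z + a) + F0 z = D z + F0 a := by
    intro z
    rw [hD]
    simp only [F0, X_add, Y_add, add_mul', mul_add']
    have := two (mul (X z) (Y z))
    calc _ = (mul (X z) (Y z) + mul (X z) (Y z)) +
        (mul (X z) (Y a) + mul (X a) (Y z) + mul (X a) (Y a)) := by abel
      _ = _ := by rw [this, zero_add]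
  unfold pre
  rw [show (2 : ℕ) ^ (8 - 4) = 16 by norm_num, ← hfib (β + F0 a)]
  congr 1
  ext z
  simp only [Finset.mem_filter, Finset.mem_univ, true_and, key]
  constructor
  · rintro rfl
    rw [add_assoc, two, add_zero]
  · intro h
    rw [h, add_assoc, two, add_zero]

def tab : List (ℕ × ℕ × ℕ × ℕ × ℕ) := [(0, 0, 0, 0, 0), (1, 1, 2, 4, 8), (2, 2, 12, 8, 1),
  (3, 3, 14, 12, 9), (4, 4, 3, 15, 5), (5, 5, 1, 11, 13), (6, 6, 15, 7, 4), (7, 7, 13, 3, 12),
  (8, 8, 7, 10, 14), (9, 9, 5, 14, 6), (10, 10, 11, 2, 15), (11, 11, 9, 6, 7), (12, 12, 4, 5, 11),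
  (13, 13, 6, 1, 3), (14, 14, 8, 13, 10), (15, 15, 10, 9, 2)]

def ok (a b c d : ℕ) : Bool :=
  !(Nat.beq a 0) && (!(Nat.beq b 0) && (!(Nat.beq b a) && (!(Nat.beq c 0) && (!(Nat.beq c a) &&
  (!(Nat.beq c b) && (!(Nat.beq c (a ^^^ b)) && (!(Nat.beq d 0) && (!(Nat.beq d a) &&
  (!(Nat.beq d b) && (!(Nat.beq d (a ^^^ b)) && (!(Nat.beq d c) && (!(Nat.beq d (a ^^^ c)) &&
  (!(Nat.beq d (b ^^^ c)) && !(Nat.beq d (a ^^^ b ^^^ c)))))))))))))))

def okE (b c d : ℕ) (e : ℕ × ℕ × ℕ × ℕ × ℕ) : Bool :=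
  ok e.2.1 (e.2.2.1 ^^^ b) (e.2.2.2.1 ^^^ c) (e.2.2.2.2 ^^^ d)

def chk : Bool := (List.range 16).all fun b => (List.range 16).all fun c =>
  (List.range 16).all fun d => tab.any fun e => okE b c d e &&
    tab.any fun e' => Nat.blt e.1 e'.1 && okE b c d e'

lemma chk0 : chk = true := by decide +kernel

def e0 : V 4 := ![1, 0, 0, 0]
def e1 : V 4 := ![0, 1, 0, 0]
def e2 : V 4 := ![0, 0, 1, 0]
def e3 : V 4 := ![0, 0, 0, 1]

lemma tab_spec : ∀ e ∈ tab, e.1 < 16 ∧ e.2.1 < 16 ∧ e.2.2.1 < 16 ∧ e.2.2.2.1 < 16 ∧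
    e.2.2.2.2 < 16 ∧ mul e0 (dec e.1) = dec e.2.1 ∧ mul e1 (dec e.1) = dec e.2.2.1 ∧
    mul e2 (dec e.1) = dec e.2.2.2.1 ∧ mul e3 (dec e.1) = dec e.2.2.2.2 := by
  decide +kernel

lemma cases16 (x : V 4) : x = 0 ∨ x = e0 ∨ x = e1 ∨ x = e0 + e1 ∨ x = e2 ∨ x = e0 + e2 ∨
    x = e1 + e2 ∨ x = e0 + e1 + e2 ∨ x = e3 ∨ x = e0 + e3 ∨ x = e1 + e3 ∨ x = e0 + e1 + e3 ∨
    x = e2 + e3 ∨ x = e0 + e2 + e3 ∨ x = e1 + e2 + e3 ∨ x = e0 + e1 + e2 + e3 := by
  obtain ⟨a, ha, rfl⟩ := dec_surj x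
  interval_cases a <;> decide +kernel

lemma dec_zero : dec 0 = 0 := by decide +kernel

lemma ker_of_ok (g : V 4 → V 4) (hadd : ∀ x x', g (x + x') = g x + g x') (a b c d : ℕ)
    (ha : a < 16) (hb : b < 16) (hc : c < 16) (hd : d < 16)
    (h0 : g e0 = dec a) (h1 : g e1 = dec b) (h2 : g e2 = dec c) (h3 : g e3 = dec d)
    (hok : ok a b c d = true) (x : V 4) (hx : g x = 0) : x = 0 := by
  have lt : ∀ p q : ℕ, p < 16 → q < 16 → p ^^^ q < 16 := fun p q hp hq =>
    Nat.xor_lt_two_pow (n := 4) hp hq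
  have z1 : ∀ p, p < 16 → dec p = 0 → p = 0 := fun p hp h =>
    dec_inj p 0 hp (by norm_num) (h.trans dec_zero.symm)
  have z2 : ∀ p q, p < 16 → q < 16 → dec p + dec q = 0 → q = p := by
    intro p q hp hq h
    rw [← dec_xor] at h
    exact (Nat.xor_eq_zero_iff.1 (z1 _ (lt _ _ hp hq) h)).symm
  simp only [ok, Bool.and_eq_true, Bool.not_eq_true', Bool.eq_false_iff, ne_eq,
    Nat.beq_eq] at hok
  obtain ⟨k1, k2, k3, k4, k5, k6, k7, k8, k9, k10, k11, k12, k13, k14, k15⟩ := hok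
  rcases cases16 x with h | h | h | h | h | h | h | h | h | h | h | h | h | h | h | h
  · exact h
  all_goals
    exfalso
    subst h
    simp only [hadd, h0, h1, h2, h3] at hx
  · exact k1 (z1 _ ha hx)
  · exact k2 (z1 _ hb hx)
  · exact k3 (z2 _ _ ha hb hx)
  · exact k4 (z1 _ hc hx)
  · exact k5 (z2 _ _ ha hc hx)
  · exact k6 (z2 _ _ hb hc hx)
  · rw [← dec_xor a b] at hx; exact k7 (z2 _ _ (lt _ _ ha hb) hc hx)
  · exact k8 (z1 _ hd hx)
  · exact k9 (z2 _ _ ha hd hx)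
  · exact k10 (z2 _ _ hb hd hx)
  · rw [← dec_xor a b] at hx; exact k11 (z2 _ _ (lt _ _ ha hb) hd hx)
  · exact k12 (z2 _ _ hc hd hx)
  · rw [← dec_xor a c] at hx; exact k13 (z2 _ _ (lt _ _ ha hc) hd hx)
  · rw [← dec_xor b c] at hx; exact k14 (z2 _ _ (lt _ _ hb hc) hd hx)
  · rw [← dec_xor a b, ← dec_xor (a ^^^ b) c] at hx
    exact k15 (z2 _ _ (lt _ _ (lt _ _ ha hb) hc) hd hx)

lemma two_pre (L : V 8 →ₗ[ZMod 2] V 4) (α : V 4) : 2 ≤ pre (fun z => F0 z + L z) α := by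
  set y0 : V 4 := L (J e0 0) with hy0
  let U : V 4 → V 4 := fun x => mul x y0 + L (J x 0)
  have Uadd : ∀ x x', U (x + x') = U x + U x' := by
    intro x x'
    have : J (x + x') 0 = J x 0 + J x' 0 := by rw [← J_add, add_zero]
    simp only [U, add_mul', this, map_add]
    abel
  have U0 : U e0 = 0 := by
    have : mul e0 y0 = y0 := by
      funext i; fin_cases i <;> simp [mul, e0]
    simp only [U, this, ← hy0, two]
  obtain ⟨b, hb, hb'⟩ := dec_surj (U e1)
  obtain ⟨c, hc, hc'⟩ := dec_surj (U e2)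
  obtain ⟨d, hd, hd'⟩ := dec_surj (U e3)
  have lt : ∀ p q : ℕ, p < 16 → q < 16 → p ^^^ q < 16 := fun p q hp hq =>
    Nat.xor_lt_two_pow (n := 4) hp hq
  have sol : ∀ e ∈ tab, okE b c d e = true →
      ∃ z, F0 z + L z = α ∧ Y z = y0 + dec e.1 := by
    intro e he hok
    obtain ⟨-, t1, t2, t3, t4, s0, s1, s2, s3⟩ := tab_spec e he
    let g : V 4 → V 4 := fun x => mul x (dec e.1) + U x
    have gadd : ∀ x x', g (x + x') = g x + g x' := by
      intro x x'
      simp only [g, add_mul', Uadd]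
      abel
    have hk := ker_of_ok g gadd _ _ _ _ t1 (lt _ _ t2 hb) (lt _ _ t3 hc) (lt _ _ t4 hd)
      (by simp only [g, s0, U0, add_zero]) (by simp only [g, s1, dec_xor, hb'])
      (by simp only [g, s2, dec_xor, hc']) (by simp only [g, s3, dec_xor, hd']) hok
    obtain ⟨x, hx⟩ := surj_of g gadd hk (α + L (J 0 (y0 + dec e.1)))
    refine ⟨J x (y0 + dec e.1), ?_, Y_J _ _⟩
    have hJ : J x (y0 + dec e.1) = J x 0 + J 0 (y0 + dec e.1) := by
      rw [← J_add, add_zero, zero_add]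
    simp only [g, U] at hx
    simp only [F0, X_J, Y_J]
    rw [hJ, map_add, mul_add']
    calc _ = (mul x (dec e.1) + (mul x y0 + L (J x 0))) + L (J 0 (y0 + dec e.1)) := by abel
      _ = α := by rw [hx, add_assoc, two, add_zero]
  have h := chk0
  simp only [chk, List.all_eq_true, List.mem_range, List.any_eq_true, Bool.and_eq_true,
    Nat.blt_eq] at h
  obtain ⟨e, he, hoe, e', he', hlt, hoe'⟩ := h b hb c hc d hd
  obtain ⟨z, hz, hyz⟩ := sol e he hoe
  obtain ⟨z', hz', hyz'⟩ := sol e' he' hoe'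
  have hne : z ≠ z' := by
    intro hzz
    rw [hzz, hyz'] at hyz
    have := dec_inj _ _ (tab_spec e' he').1 (tab_spec e he).1 (add_left_cancel hyz)
    omega
  unfold pre
  exact Finset.one_lt_card.2 ⟨z, by simpa using hz, z', by simpa using hz', hne⟩

theorem result :
    (∃ F : V 8 → V 4, Bent 8 4 F ∧
      ∀ L : V 8 →ₗ[ZMod 2] V 4, ¬ TypeMinus 8 4 (fun x => F x + L x)) ∧
    ¬ ∀ (n m : ℕ), Even n → 1 ≤ m → m ≤ n / 2 → ∀ F : V n → V m, Bent n m F →
      (∃ L : V n →ₗ[ZMod 2] V m, TypePlus n m (fun x => F x + L x)) ∧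
      (∃ L : V n →ₗ[ZMod 2] V m, TypeMinus n m (fun x => F x + L x)) := by
  have main : ∀ L : V 8 →ₗ[ZMod 2] V 4, ¬ TypeMinus 8 4 (fun x => F0 x + L x) := by
    rintro L ⟨α, hα, -⟩
    have := two_pre L α
    norm_num at hα
    omega
  refine ⟨⟨F0, bent, main⟩, fun h => ?_⟩
  obtain ⟨-, L, hL⟩ := h 8 4 (by decide) (by norm_num) (by norm_num) F0 bent
  exact main L hL

end Pool.Agent.Results.MP_7d7944_co.Counter
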